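import Pool.Agent.X34.M.M4

set_option autoImplicit false
set_option maxHeartbeats 4000000

/-! # Prime factors of `(a ^ (m p) - b ^ (m p)) / (a - b)` which do not divide `(a ^ m - b ^ m) / (a - b)` -/

namespace Pool.Agent.X163.RF

open Finset Filter
open Pool.Agent.H256R2.SC (ff)

/-- the homogeneous geometric sum `(a ^ n - b ^ n) / (a - b)` -/
def G (n : ℕ) (a b : ℤ) : ℤ := ∑ i ∈ range n, a ^ i * b ^ (n - 1 - i)

theorem G_mul (n : ℕ) (a b : ℤ) : G n a b * (a - b) = a ^ n - b ^ n := by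
  unfold G
  exact (Commute.all a b).geom_sum₂_mul n

theorem G_div (n : ℕ) (a b : ℤ) (h : a ≠ b) : (a ^ n - b ^ n) / (a - b) = G n a b := by
  rw [← G_mul]
  exact Int.mul_ediv_cancel _ (sub_ne_zero.2 h)

theorem G_mod (n q : ℕ) (a b : ℤ) (h : (q : ℤ) ∣ a - b) : (q : ℤ) ∣ G n a b ↔ (q : ℤ) ∣ n * b ^ (n - 1) := by
  have e1 : (a : ZMod q) = (b : ZMod q) := by
    have h2 := (ZMod.intCast_zmod_eq_zero_iff_dvd (a - b) q).2 h
    push_cast at h2
    exact sub_eq_zero.1 h2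
  rw [← ZMod.intCast_zmod_eq_zero_iff_dvd, ← ZMod.intCast_zmod_eq_zero_iff_dvd]
  unfold G
  push_cast
  rw [e1, geom_sum₂_self]

/-- the relevant prime factors are `≡ 1 (mod p)` -/
theorem factor {p q m : ℕ} (hp : p.Prime) (hq : q.Prime) (a b : ℤ) (hab : IsCoprime a b) (hqp : q ≠ p)
    (h : (q : ℤ) ∣ G (m * p) a b) (h1 : ¬ (q : ℤ) ∣ G m a b) : (p : ℤ) ∣ (q : ℤ) - 1 := by
  have hqZ : Prime (q : ℤ) := Nat.prime_iff_prime_int.1 hq
  have h2 : (q : ℤ) ∣ (a ^ m) ^ p - (b ^ m) ^ p := by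
    rw [← pow_mul, ← pow_mul, ← G_mul]
    exact h.mul_right _
  by_cases h3 : (q : ℤ) ∣ a ^ m - b ^ m
  · exfalso
    rw [← G_mul] at h3
    have h4 : (q : ℤ) ∣ a - b := (hqZ.dvd_or_dvd h3).resolve_left h1
    rw [G_mod _ _ _ _ h4] at h h1
    have hb : ¬ (q : ℤ) ∣ b := by
      intro hb
      have ha : (q : ℤ) ∣ a := by
        have := dvd_add h4 hb
        simpa using this
      obtain ⟨u, v, huv⟩ := hab
      have : (q : ℤ) ∣ 1 := by
        rw [← huv]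
        exact dvd_add (ha.mul_left _) (hb.mul_left _)
      exact hqZ.not_unit (isUnit_of_dvd_one this)
    have h5 : (q : ℤ) ∣ ((m * p : ℕ) : ℤ) := (hqZ.dvd_or_dvd h).resolve_right (fun h => hb (hqZ.dvd_of_dvd_pow h))
    have h6 : q ∣ m * p := Int.natCast_dvd_natCast.1 h5
    rcases (hq.dvd_mul).1 h6 with h7 | h7
    · exact h1 ((Int.natCast_dvd_natCast.2 h7).mul_right _)
    · exact hqp ((Nat.prime_dvd_prime_iff_eq hq hp).1 h7)
  · exact Pool.Agent.X34.M.dvd_sub_one hp hq (a ^ m) (b ^ m) (hab.pow) h2 h3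

/-- odd `p`: the relevant prime factors are `2 k p + 1` -/
theorem factor2 {p q : ℕ} (hp : p.Prime) (hp2 : 2 < p) (hq : q.Prime)
    (h : (p : ℤ) ∣ (q : ℤ) - 1) : ∃ k : ℕ, q = 2 * k * p + 1 := by
  have h1 : p ∣ q - 1 := by
    have h3 : ((q - 1 : ℕ) : ℤ) = (q : ℤ) - 1 := by
      rw [Nat.cast_sub hq.one_le]
      norm_num
    rw [← h3] at h
    exact Int.natCast_dvd_natCast.1 h
  have hq2 : q ≠ 2 := by
    rintro rfl
    have := Nat.le_of_dvd (by norm_num) h1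
    omega
  have h2 : 2 ∣ q - 1 := by
    have := (hq.even_sub_one hq2)
    exact this.two_dvd
  have h3 : 2 * p ∣ q - 1 := by
    apply Nat.Coprime.mul_dvd_of_dvd_of_dvd _ h2 h1
    rw [Nat.coprime_comm, Nat.Prime.coprime_iff_not_dvd hp]
    intro h4
    have := Nat.le_of_dvd (by norm_num) h4
    omega
  obtain ⟨k, hk⟩ := h3
  refine ⟨k, ?_⟩
  have := hq.one_le
  have h4 : 2 * k * p = 2 * p * k := by ring
  omega

theorem core (d : ℕ) (hd : Squarefree d) : ∃ c : ℝ, 0 < c ∧ ∀ᶠ X : ℝ in atTop, ∀ h : ℕ, h.Coprime d →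
    X ^ (9 / 10 : ℝ) ≤ ({p : ℕ | p.Prime ∧ X < p ∧ (p : ℝ) ≤ 3 * X ∧ p ≡ h [MOD d] ∧
      ∀ a b : ℤ, IsCoprime a b → ∀ m q : ℕ, q.Prime → q ≠ p → (q : ℤ) ∣ G (m * p) a b → ¬ (q : ℤ) ∣ G m a b →
        ∃ k : ℕ, q = 2 * k * p + 1 ∧ c * ff p < k ∧
          (k.Prime → c * (ff p * Real.log (Real.log p)) < k)}.ncard : ℝ) := by
  obtain ⟨c, hc, hX⟩ := Pool.Agent.X34.M.twoSets d hd
  refine ⟨c, hc, ?_⟩
  filter_upwards [hX, eventually_ge_atTop 2] with X hX hX2 h hh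
  refine (hX h hh).trans ?_
  refine Nat.cast_le.2 (Set.ncard_le_ncard ?_ ?_)
  · rintro p ⟨hp, hXp, hp3, hpd, h1, h2⟩
    refine ⟨hp, hXp, hp3, hpd, ?_⟩
    intro a b hab m q hq hqp hq1 hq2
    have hp2 : 2 < p := by
      have : (2 : ℝ) < p := by linarith
      exact_mod_cast this
    obtain ⟨k, hk⟩ := factor2 hp hp2 hq (factor hp hq a b hab hqp hq1 hq2)
    refine ⟨k, hk, ?_, ?_⟩
    · by_contra hcon
      push Not at hcon
      refine h1 k ?_ hcon (hk ▸ hq)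
      rcases Nat.eq_zero_or_pos k with rfl | hk0
      · simp at hk
        exact absurd (hk ▸ hq) Nat.not_prime_one
      · exact hk0
    · intro hkp
      by_contra hcon
      push Not at hcon
      exact h2 k hkp hcon (hk ▸ hq)
  · apply (Set.finite_Iic ⌊3 * X⌋₊).subset
    intro p hp
    exact Set.mem_Iic.2 (Nat.le_floor hp.2.2.1)

end Pool.Agent.X163.RF
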