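import Pool.Agent.X163.RF.C1

set_option autoImplicit false
set_option maxHeartbeats 4000000

/-! # The three families: repunits, Wagstaff quotients, `M_p(a, b)` -/

namespace Pool.Agent.X163.RF

open Finset Filter
open Pool.Agent.H256R2.SC (ff)

/-- the property of the prime `q` relative to `p` -/
def Big (c : ℝ) (p q : ℕ) : Prop := ∃ k : ℕ, q = 2 * k * p + 1 ∧ c * ff p < k ∧
          (k.Prime → c * (ff p * Real.log (Real.log p)) < k)

theorem G_one (a b : ℤ) : G 1 a b = 1 := by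
  unfold G
  simp

theorem not_dvd_one {q : ℕ} (hq : q.Prime) : ¬ (q : ℤ) ∣ 1 := by
  intro h
  have : q ∣ 1 := by exact_mod_cast h
  exact hq.one_lt.ne' (Nat.dvd_one.1 this)

theorem G_right_one (n : ℕ) (a : ℤ) : G n a 1 = ∑ i ∈ range n, a ^ i := by
  unfold G
  simp

/-- `p ∤ G p a b` if `p ∤ a - b` -/
theorem not_self {p : ℕ} (hp : p.Prime) (a b : ℤ) (h : ¬ (p : ℤ) ∣ a - b) : ¬ (p : ℤ) ∣ G p a b := by
  haveI : Fact p.Prime := ⟨hp⟩
  intro h1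
  have h2 : (p : ℤ) ∣ a ^ p - b ^ p := by
    rw [← G_mul]
    exact h1.mul_right _
  apply h
  have h3 := (ZMod.intCast_zmod_eq_zero_iff_dvd (a ^ p - b ^ p) p).2 h2
  rw [← ZMod.intCast_zmod_eq_zero_iff_dvd]
  push_cast at h3 ⊢
  rwa [ZMod.pow_card, ZMod.pow_card] at h3

/-- the pairs -/
theorem pairs (d : ℕ) (hd : Squarefree d) : ∃ c : ℝ, 0 < c ∧ ∀ᶠ X : ℝ in atTop, ∀ h : ℕ, h.Coprime d →
    X ^ (9 / 10 : ℝ) ≤ ({p : ℕ | p.Prime ∧ X < p ∧ (p : ℝ) ≤ 3 * X ∧ p ≡ h [MOD d] ∧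
      (∀ a b : ℤ, IsCoprime a b → ¬ (p : ℤ) ∣ a - b → ∀ q : ℕ, q.Prime → (q : ℤ) ∣ (a ^ p - b ^ p) / (a - b) →
        Big c p q) ∧
      (∀ a b : ℤ, IsCoprime a b → ∀ m q : ℕ, q.Prime → q ≠ p →
        (q : ℤ) ∣ (a ^ (m * p) - b ^ (m * p)) / (a - b) → ¬ (q : ℤ) ∣ (a ^ m - b ^ m) / (a - b) →
        Big c p q)}.ncard : ℝ) := by
  obtain ⟨c, hc, hX⟩ := core d hd
  refine ⟨c, hc, ?_⟩
  filter_upwards [hX] with X hX h hh
  refine (hX h hh).trans ?_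
  refine Nat.cast_le.2 (Set.ncard_le_ncard ?_ ?_)
  · rintro p ⟨hp, hXp, hp3, hpd, h1⟩
    refine ⟨hp, hXp, hp3, hpd, ?_, ?_⟩
    · intro a b hab hpab q hq hqd
      have hne : a ≠ b := by
        rintro rfl
        simp at hpab
      rw [G_div _ _ _ hne] at hqd
      refine h1 a b hab 1 q hq ?_ (by rwa [one_mul]) (by rw [G_one]; exact not_dvd_one hq)
      rintro rfl
      exact not_self hp a b hpab hqd
    · intro a b hab m q hq hqp hq1 hq2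
      have hne : a ≠ b := by
        rintro rfl
        simp at hq2
      rw [G_div _ _ _ hne] at hq1 hq2
      exact h1 a b hab m q hq hqp hq1 hq2
  · apply (Set.finite_Iic ⌊3 * X⌋₊).subset
    intro p hp
    exact Set.mem_Iic.2 (Nat.le_floor hp.2.2.1)

/-- repunits in all bases -/
theorem repunits (d : ℕ) (hd : Squarefree d) : ∃ c : ℝ, 0 < c ∧ ∀ᶠ X : ℝ in atTop, ∀ h : ℕ, h.Coprime d →
    X ^ (9 / 10 : ℝ) ≤ ({p : ℕ | p.Prime ∧ X < p ∧ (p : ℝ) ≤ 3 * X ∧ p ≡ h [MOD d] ∧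
      (∀ q : ℕ, q.Prime → q ∣ ∑ i ∈ range p, 10 ^ i → Big c p q) ∧
      (∀ b : ℤ, ¬ (p : ℤ) ∣ b - 1 → ∀ q : ℕ, q.Prime → (q : ℤ) ∣ ∑ i ∈ range p, b ^ i → Big c p q) ∧
      (∀ b : ℤ, ∀ m q : ℕ, q.Prime → q ≠ p →
        (q : ℤ) ∣ ∑ i ∈ range (m * p), b ^ i → ¬ (q : ℤ) ∣ ∑ i ∈ range m, b ^ i →
        Big c p q)}.ncard : ℝ) := by
  obtain ⟨c, hc, hX⟩ := core d hd
  refine ⟨c, hc, ?_⟩
  filter_upwards [hX, eventually_ge_atTop 9] with X hX hX9 h hh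
  refine (hX h hh).trans ?_
  refine Nat.cast_le.2 (Set.ncard_le_ncard ?_ ?_)
  · rintro p ⟨hp, hXp, hp3, hpd, h1⟩
    have key : ∀ b : ℤ, ¬ (p : ℤ) ∣ b - 1 → ∀ q : ℕ, q.Prime → (q : ℤ) ∣ ∑ i ∈ range p, b ^ i → Big c p q := by
      intro b hpb q hq hqd
      rw [← G_right_one] at hqd
      refine h1 b 1 isCoprime_one_right 1 q hq ?_ (by rwa [one_mul]) (by rw [G_one]; exact not_dvd_one hq)
      rintro rfl
      exact not_self hp b 1 hpb hqd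
    refine ⟨hp, hXp, hp3, hpd, ?_, key, ?_⟩
    · intro q hq hqd
      refine key 10 ?_ q hq ?_
      · intro h9
        norm_num at h9
        have h10 : p ∣ 9 := by exact_mod_cast h9
        have h11 := Nat.le_of_dvd (by norm_num) h10
        have h12 : (p : ℝ) ≤ 9 := by exact_mod_cast h11
        linarith
      · exact_mod_cast hqd
    · intro b m q hq hqp hq1 hq2
      rw [← G_right_one] at hq1 hq2
      exact h1 b 1 isCoprime_one_right m q hq hqp hq1 hq2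
  · apply (Set.finite_Iic ⌊3 * X⌋₊).subset
    intro p hp
    exact Set.mem_Iic.2 (Nat.le_floor hp.2.2.1)

theorem wag (n b : ℕ) (hn : Odd n) : (((b ^ n + 1) / (b + 1) : ℕ) : ℤ) = G n (-(b : ℤ)) 1 := by
  have h1 : (-(b : ℤ)) ≠ 1 := by
    intro h
    have : (0 : ℤ) ≤ b := Int.natCast_nonneg b
    omega
  rw [← G_div _ _ _ h1, hn.neg_pow, one_pow]
  push_cast
  have e1 : -(b : ℤ) ^ n - 1 = -((b : ℤ) ^ n + 1) := by ring
  have e2 : -(b : ℤ) - 1 = -((b : ℤ) + 1) := by ring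
  rw [e1, e2, Int.ediv_neg]
  have h3 : ((b : ℤ) + 1) ∣ ((b : ℤ) ^ n + 1) := by
    have := hn.add_dvd_pow_add_pow (b : ℤ) 1
    simpa using this
  rw [Int.neg_ediv_of_dvd h3, neg_neg]

/-- Wagstaff quotients -/
theorem wagstaff (d : ℕ) (hd : Squarefree d) : ∃ c : ℝ, 0 < c ∧ ∀ᶠ X : ℝ in atTop, ∀ h : ℕ, h.Coprime d →
    X ^ (9 / 10 : ℝ) ≤ ({p : ℕ | p.Prime ∧ X < p ∧ (p : ℝ) ≤ 3 * X ∧ p ≡ h [MOD d] ∧
      (∀ b : ℕ, ¬ p ∣ b + 1 → ∀ q : ℕ, q.Prime → q ∣ (b ^ p + 1) / (b + 1) → Big c p q) ∧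
      (∀ b m : ℕ, Odd m → ∀ q : ℕ, q.Prime → q ≠ p →
        q ∣ (b ^ (m * p) + 1) / (b + 1) → ¬ q ∣ (b ^ m + 1) / (b + 1) → Big c p q)}.ncard : ℝ) := by
  obtain ⟨c, hc, hX⟩ := core d hd
  refine ⟨c, hc, ?_⟩
  filter_upwards [hX, eventually_ge_atTop 2] with X hX hX2 h hh
  refine (hX h hh).trans ?_
  refine Nat.cast_le.2 (Set.ncard_le_ncard ?_ ?_)
  · rintro p ⟨hp, hXp, hp3, hpd, h1⟩
    have hp2 : 2 < p := by
      have : (2 : ℝ) < p := by linarith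
      exact_mod_cast this
    have hpo : Odd p := hp.odd_of_ne_two (by omega)
    refine ⟨hp, hXp, hp3, hpd, ?_, ?_⟩
    · intro b hpb q hq hqd
      have hqd' : (q : ℤ) ∣ G p (-(b : ℤ)) 1 := by
        rw [← wag _ _ hpo]
        exact Int.natCast_dvd_natCast.2 hqd
      refine h1 (-(b : ℤ)) 1 isCoprime_one_right 1 q hq ?_ (by rwa [one_mul]) (by rw [G_one]; exact not_dvd_one hq)
      rintro rfl
      refine not_self hp (-(b : ℤ)) 1 ?_ hqd'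
      intro h4
      apply hpb
      have h5 : -(b : ℤ) - 1 = -((b + 1 : ℕ) : ℤ) := by push_cast; ring
      rw [h5, dvd_neg] at h4
      exact Int.natCast_dvd_natCast.1 h4
    · intro b m hm q hq hqp hq1 hq2
      refine h1 (-(b : ℤ)) 1 isCoprime_one_right m q hq hqp ?_ ?_
      · rw [← wag _ _ (hm.mul hpo)]
        exact Int.natCast_dvd_natCast.2 hq1
      · rw [← wag _ _ hm]
        intro h4
        exact hq2 (Int.natCast_dvd_natCast.1 h4)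
  · apply (Set.finite_Iic ⌊3 * X⌋₊).subset
    intro p hp
    exact Set.mem_Iic.2 (Nat.le_floor hp.2.2.1)

end Pool.Agent.X163.RF
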